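import Mathlib

namespace Pool.Agent.Results.MP_420652_co.LimitSym

open Finset

/-- Every colour occurs in every row, in every column and on the main diagonal. -/
def Admissible {n : ℕ} (c : Fin n → Fin n → Fin n) : Prop :=
  (∀ p k, ∃ q, c p q = k) ∧ (∀ q k, ∃ p, c p q = k) ∧ (∀ k, ∃ i, c i i = k)

/-- Super rooks on the diagonal cells indexed by `D` attack every off-diagonal cell. -/
def Covers {n : ℕ} (c : Fin n → Fin n → Fin n) (D : Finset (Fin n)) : Prop :=
  ∀ p q, p ≠ q → ∃ i ∈ D, p = i ∨ q = i ∨ c p q = c i i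

noncomputable def s {n : ℕ} (c : Fin n → Fin n → Fin n) : ℕ :=
  sInf {m | ∃ D : Finset (Fin n), D.card = m ∧ Covers c D}

noncomputable def f (n : ℕ) : ℕ :=
  sSup {m | ∃ c : Fin n → Fin n → Fin n, Admissible c ∧ s c = m}

noncomputable def fsym (n : ℕ) : ℕ :=
  sSup {m | ∃ c : Fin n → Fin n → Fin n, Admissible c ∧ (∀ p q, c p q = c q p) ∧ s c = m}

def Adm {Q : Type} (c : Q → Q → Q) : Prop :=
  (∀ p k, ∃ q, c p q = k) ∧ (∀ q k, ∃ p, c p q = k) ∧ (∀ k, ∃ i, c i i = k)

def Free {Q : Type} (c : Q → Q → Q) (E : Finset Q) : Prop :=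
  ∀ p ∈ E, ∀ q ∈ E, ∀ i ∈ E, p ≠ q → c p q ≠ c i i

lemma covers_univ {n : ℕ} (c : Fin n → Fin n → Fin n) : Covers c univ :=
  fun p _ _ => ⟨p, mem_univ _, Or.inl rfl⟩

lemma s_le {n : ℕ} (c : Fin n → Fin n → Fin n) {D : Finset (Fin n)} (h : Covers c D) :
    s c ≤ D.card := Nat.sInf_le ⟨D, rfl, h⟩

lemma s_le_n {n : ℕ} (c : Fin n → Fin n → Fin n) : s c ≤ n := by
  simpa using s_le c (covers_univ c)

lemma s_spec {n : ℕ} (c : Fin n → Fin n → Fin n) :
    ∃ D : Finset (Fin n), D.card = s c ∧ Covers c D :=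
  Nat.sInf_mem (s := {m | ∃ D : Finset (Fin n), D.card = m ∧ Covers c D})
    ⟨_, univ, rfl, covers_univ c⟩

lemma diag_inj {n : ℕ} {c : Fin n → Fin n → Fin n} (h : Admissible c) :
    Function.Injective (fun i => c i i) :=
  Finite.injective_iff_surjective.2 h.2.2

lemma row_inj {n : ℕ} {c : Fin n → Fin n → Fin n} (h : Admissible c) (p : Fin n) :
    Function.Injective (fun q => c p q) :=
  Finite.injective_iff_surjective.2 (h.1 p)

lemma col_inj {n : ℕ} {c : Fin n → Fin n → Fin n} (h : Admissible c) (q : Fin n) :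
    Function.Injective (fun p => c p q) :=
  Finite.injective_iff_surjective.2 (h.2.1 q)

lemma free_compl {n : ℕ} {c : Fin n → Fin n → Fin n} (h : Admissible c) {D : Finset (Fin n)}
    (hD : Covers c D) : Free c Dᶜ := by
  intro p hp q hq i hi hpq he
  rw [mem_compl] at hp hq hi
  obtain ⟨j, hj, h1 | h1 | h1⟩ := hD p q hpq
  · exact hp (h1 ▸ hj)
  · exact hq (h1 ▸ hj)
  · have : i = j := diag_inj h (he.symm.trans h1)
    exact hi (this ▸ hj)

lemma covers_compl {n : ℕ} {c : Fin n → Fin n → Fin n} (h : Admissible c) {E : Finset (Fin n)}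
    (hE : Free c E) : Covers c Eᶜ := by
  intro p q hpq
  by_cases hp : p ∈ E
  · by_cases hq : q ∈ E
    · obtain ⟨i, hi⟩ := h.2.2 (c p q)
      refine ⟨i, mem_compl.2 fun hiE => hE p hp q hq i hiE hpq hi.symm, Or.inr (Or.inr hi.symm)⟩
    · exact ⟨q, mem_compl.2 hq, Or.inr (Or.inl rfl)⟩
  · exact ⟨p, mem_compl.2 hp, Or.inl rfl⟩

/-- a largest free set, and the three ways a point outside it is blocked -/
lemma exists_max {n : ℕ} {c : Fin n → Fin n → Fin n} (h : Admissible c) :
    ∃ E : Finset (Fin n), Free c E ∧ ∀ x, x ∉ E → ∃ a ∈ E, ∃ b ∈ E, a ≠ b ∧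
      (c a b = c x x ∨ c x a = c b b ∨ c a x = c b b) := by
  classical
  obtain ⟨E, hE, hmax⟩ := exists_max_image
    ((univ : Finset (Finset (Fin n))).filter (fun E => Free c E)) card
    ⟨∅, by simp [Free]⟩
  have hF : Free c E := (mem_filter.1 hE).2
  refine ⟨E, hF, fun x hx => ?_⟩
  have hn : ¬ Free c (insert x E) := by
    intro hI
    have := hmax (insert x E) (mem_filter.2 ⟨mem_univ _, hI⟩)
    rw [card_insert_of_notMem hx] at this
    omega
  unfold Free at hn
  push Not at hn
  obtain ⟨p, hp, q, hq, i, hi, hpq, he⟩ := hn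
  rw [mem_insert] at hp hq hi
  rcases hp with rfl | hp
  · rcases hq with rfl | hq
    · exact absurd rfl hpq
    · rcases hi with rfl | hi
      · exact absurd (row_inj h _ he).symm hpq
      · refine ⟨q, hq, i, hi, ?_, Or.inr (Or.inl he)⟩
        rintro rfl
        exact hpq (col_inj h _ he)
  · rcases hq with rfl | hq
    · rcases hi with rfl | hi
      · exact absurd (col_inj h _ he) hpq
      · refine ⟨p, hp, i, hi, ?_, Or.inr (Or.inr he)⟩
        rintro rfl
        exact hpq (row_inj h _ he).symm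
    · rcases hi with rfl | hi
      · exact ⟨p, hp, q, hq, hpq, Or.inl he⟩
      · exact absurd he (hF p hp q hq i hi hpq)

lemma upper {n : ℕ} {c : Fin n → Fin n → Fin n} (h : Admissible c) :
    n + 2 * (n - s c) ≤ 3 * (n - s c) ^ 2 := by
  classical
  obtain ⟨E, hF, hb⟩ := exists_max h
  choose g1 hg1 using h.2.2
  choose g2 hg2 using h.2.1
  choose g3 hg3 using h.1
  have hsub : Eᶜ ⊆ (E.offDiag.image (fun z => g1 (c z.1 z.2)) ∪
      E.offDiag.image (fun z => g2 z.1 (c z.2 z.2))) ∪
      E.offDiag.image (fun z => g3 z.1 (c z.2 z.2)) := by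
    intro x hx
    obtain ⟨a, ha, b, hb', hab, h1 | h1 | h1⟩ := hb x (mem_compl.1 hx)
    · refine mem_union_left _ (mem_union_left _ (mem_image.2 ⟨(a, b), by simp [ha, hb', hab], ?_⟩))
      exact diag_inj h ((hg1 _).trans h1)
    · refine mem_union_left _ (mem_union_right _ (mem_image.2 ⟨(a, b), by simp [ha, hb', hab], ?_⟩))
      exact col_inj h a ((hg2 _ _).trans h1.symm)
    · refine mem_union_right _ (mem_image.2 ⟨(a, b), by simp [ha, hb', hab], ?_⟩)
      exact row_inj h a ((hg3 _ _).trans h1.symm)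
  have hc := card_le_card hsub
  have u1 := card_union_le (E.offDiag.image (fun z => g1 (c z.1 z.2)) ∪
      E.offDiag.image (fun z => g2 z.1 (c z.2 z.2))) (E.offDiag.image (fun z => g3 z.1 (c z.2 z.2)))
  have u2 := card_union_le (E.offDiag.image (fun z => g1 (c z.1 z.2)))
      (E.offDiag.image (fun z => g2 z.1 (c z.2 z.2)))
  have i1 : #(E.offDiag.image (fun z => g1 (c z.1 z.2))) ≤ #E.offDiag := card_image_le
  have i2 : #(E.offDiag.image (fun z => g2 z.1 (c z.2 z.2))) ≤ #E.offDiag := card_image_le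
  have i3 : #(E.offDiag.image (fun z => g3 z.1 (c z.2 z.2))) ≤ #E.offDiag := card_image_le
  have ho := offDiag_card E
  have hs := s_le c (covers_compl h hF)
  have hcc : #Eᶜ + #E = n := by rw [card_compl_add_card]; simp
  have hle : #E ≤ #E * #E := Nat.le_mul_self _
  have key : n + 2 * #E ≤ 3 * (#E * #E) := by omega
  obtain ⟨d, hd⟩ : ∃ d, n - s c = #E + d := ⟨n - s c - #E, by omega⟩
  rw [hd]
  have : d ≤ d * d := Nat.le_mul_self _
  nlinarith [Nat.zero_le (#E * d)]

lemma upper_sym {n : ℕ} {c : Fin n → Fin n → Fin n} (h : Admissible c)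
    (hsy : ∀ p q, c p q = c q p) : 2 * n + (n - s c) ≤ 3 * (n - s c) ^ 2 := by
  classical
  obtain ⟨E, hF, hb⟩ := exists_max h
  choose g1 hg1 using h.2.2
  choose g2 hg2 using h.2.1
  let G : Sym2 (Fin n) → Fin n := Sym2.lift ⟨fun a b => g1 (c a b), fun a b => congrArg g1 (hsy a b)⟩
  have hsub : Eᶜ ⊆ ((E.offDiag.image Sym2.mk.uncurry).image G ∪
      E.offDiag.image (fun z => g2 z.1 (c z.2 z.2))) := by
    intro x hx
    obtain ⟨a, ha, b, hb', hab, h1 | h1 | h1⟩ := hb x (mem_compl.1 hx)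
    · refine mem_union_left _ (mem_image.2 ⟨s(a, b), mem_image.2 ⟨(a, b), by simp [ha, hb', hab], rfl⟩, ?_⟩)
      exact diag_inj h ((hg1 _).trans h1)
    · refine mem_union_right _ (mem_image.2 ⟨(a, b), by simp [ha, hb', hab], ?_⟩)
      exact col_inj h a ((hg2 _ _).trans h1.symm)
    · refine mem_union_right _ (mem_image.2 ⟨(a, b), by simp [ha, hb', hab], ?_⟩)
      exact col_inj h a ((hg2 _ _).trans (h1.symm.trans (hsy _ _)))
  have hc := card_le_card hsub
  have u2 := card_union_le ((E.offDiag.image Sym2.mk.uncurry).image G)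
      (E.offDiag.image (fun z => g2 z.1 (c z.2 z.2)))
  have i1 : #((E.offDiag.image Sym2.mk.uncurry).image G) ≤ #(E.offDiag.image Sym2.mk.uncurry) :=
    card_image_le
  have i2 : #(E.offDiag.image (fun z => g2 z.1 (c z.2 z.2))) ≤ #E.offDiag := card_image_le
  have i3 := Sym2.two_mul_card_image_offDiag E
  have ho := offDiag_card E
  have hs := s_le c (covers_compl h hF)
  have hcc : #Eᶜ + #E = n := by rw [card_compl_add_card]; simp
  have hle : #E ≤ #E * #E := Nat.le_mul_self _
  have key : 2 * n + #E ≤ 3 * (#E * #E) := by omega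
  obtain ⟨d, hd⟩ : ∃ d, n - s c = #E + d := ⟨n - s c - #E, by omega⟩
  rw [hd]
  have : d ≤ d * d := Nat.le_mul_self _
  nlinarith [Nat.zero_le (#E * d)]

/-- transport of a colouring of an arbitrary finite type -/
lemma transport {Q : Type} [Fintype Q] [DecidableEq Q] {n : ℕ} (hn : Fintype.card Q = n)
    (c : Q → Q → Q) (h : Adm c) (a : ℝ) (ha : ∀ E, Free c E → (#E : ℝ) ≤ a) :
    ∃ c' : Fin n → Fin n → Fin n, Admissible c' ∧ ((∀ p q, c p q = c q p) → ∀ p q, c' p q = c' q p)
      ∧ (n : ℝ) - a ≤ s c' := by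
  let e : Q ≃ Fin n := Fintype.equivFinOfCardEq hn
  let c' : Fin n → Fin n → Fin n := fun p q => e (c (e.symm p) (e.symm q))
  have had : Admissible c' := by
    refine ⟨fun p k => ?_, fun q k => ?_, fun k => ?_⟩
    · obtain ⟨q, hq⟩ := h.1 (e.symm p) (e.symm k)
      exact ⟨e q, by simp [c', hq]⟩
    · obtain ⟨p, hp⟩ := h.2.1 (e.symm q) (e.symm k)
      exact ⟨e p, by simp [c', hp]⟩
    · obtain ⟨i, hi⟩ := h.2.2 (e.symm k)
      exact ⟨e i, by simp [c', hi]⟩
  refine ⟨c', had, fun hs p q => by simp only [c', hs (e.symm p)], ?_⟩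
  obtain ⟨D, hD, hcov⟩ := s_spec c'
  have hF := free_compl had hcov
  have hF' : Free c (Dᶜ.map e.symm.toEmbedding) := by
    intro p hp q hq i hi hpq he
    obtain ⟨p, hp', rfl⟩ := mem_map.1 hp
    obtain ⟨q, hq', rfl⟩ := mem_map.1 hq
    obtain ⟨i, hi', rfl⟩ := mem_map.1 hi
    refine hF p hp' q hq' i hi' (fun h => hpq (by rw [h])) ?_
    simp only [c']
    exact congrArg e he
  have := ha _ hF'
  rw [card_map] at this
  have hcc : #Dᶜ + #D = n := by rw [card_compl_add_card]; simp
  have h2 : (#Dᶜ : ℝ) + #D = n := by exact_mod_cast hcc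
  rw [← hD]; linarith

lemma half (m : ℕ) (hm : Odd m) : ∃ h : ZMod m, 2 * h = 1 := by
  obtain ⟨k, hk⟩ := hm
  refine ⟨((k + 1 : ℕ) : ZMod m), ?_⟩
  have : ((2 * (k + 1) : ℕ) : ZMod m) = ((m + 1 : ℕ) : ZMod m) := by congr 1; omega
  push_cast at this ⊢
  rw [this]; simp

lemma odd_case (ε : ℝ) (hε : 0 < ε) (m : ℕ) [NeZero m] (hm : Odd m)
    (hN : cornersTheoremBound ε ≤ m) :
    ∃ c' : Fin m → Fin m → Fin m, Admissible c' ∧ (∀ p q, c' p q = c' q p) ∧
      (m : ℝ) - ε * m ≤ s c' := by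
  obtain ⟨h, hh⟩ := half m hm
  let c : ZMod m → ZMod m → ZMod m := fun p q => h * (p + q)
  have had : Adm c := by
    refine ⟨fun p k => ⟨2 * k - p, ?_⟩, fun q k => ⟨2 * k - q, ?_⟩, fun k => ⟨k, ?_⟩⟩ <;>
      simp only [c] <;> linear_combination k * hh
  obtain ⟨c', h1, h2, h3⟩ := transport (ZMod.card m) c had (ε * m) (fun E hE => by
    by_contra hlt
    push Not at hlt
    refine roth_3ap_theorem ε hε (by rw [ZMod.card]; exact hN) E
      (by rw [ZMod.card]; exact hlt.le) ?_
    intro a ha b hb d hd he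
    by_contra hab
    refine hE a ha d hd b hb ?_ ?_
    · rintro rfl
      exact hab (by linear_combination h * he - (a - b) * hh)
    · simp only [c]; rw [he])
  exact ⟨c', h1, h2 (fun p q => by simp only [c, add_comm]), h3⟩

def pro {m : ℕ} (h : ZMod m) : Option (ZMod m) → Option (ZMod m) → Option (ZMod m)
  | none, none => none
  | some p, none => some (p + 1)
  | none, some q => some (q - 1)
  | some p, some q => if q = p + 2 then none else some (h * (p + q))

lemma even_case (ε : ℝ) (hε : 0 < ε) (m : ℕ) (hm : Odd m) (h1m : 1 < m)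
    (hN : cornersTheoremBound ε ≤ m) :
    ∃ c' : Fin (m + 1) → Fin (m + 1) → Fin (m + 1), Admissible c' ∧
      ((m + 1 : ℕ) : ℝ) - (ε * m + 1) ≤ s c' := by
  classical
  haveI : Fact (1 < m) := ⟨h1m⟩
  haveI : NeZero m := ⟨by omega⟩
  obtain ⟨h, hh⟩ := half m hm
  have hdiag : ∀ k : ZMod m, pro h (some k) (some k) = some k := by
    intro k
    have : ¬ k = k + 2 := by
      intro hk
      exact one_ne_zero (α := ZMod m) (by linear_combination (-h) * hk - hh)
    simp only [pro, this, if_false]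
    congr 1; linear_combination k * hh
  have had : Adm (pro h) := by
    refine ⟨fun p k => ?_, fun q k => ?_, fun k => ?_⟩
    · rcases p with _ | p <;> rcases k with _ | k
      · exact ⟨none, rfl⟩
      · exact ⟨some (k + 1), by simp [pro]⟩
      · exact ⟨some (p + 2), by simp [pro]⟩
      · by_cases hk : k = p + 1
        · exact ⟨none, by simp [pro, hk]⟩
        · refine ⟨some (2 * k - p), ?_⟩
          have : ¬ 2 * k - p = p + 2 := fun h' =>
            hk (by linear_combination h * h' - (k - p - 1) * hh)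
          simp only [pro, this, if_false]
          congr 1; linear_combination k * hh
    · rcases q with _ | q <;> rcases k with _ | k
      · exact ⟨none, rfl⟩
      · exact ⟨some (k - 1), by simp [pro]⟩
      · exact ⟨some (q - 2), by simp [pro]⟩
      · by_cases hk : k = q - 1
        · exact ⟨none, by simp [pro, hk]⟩
        · refine ⟨some (2 * k - q), ?_⟩
          have : ¬ q = 2 * k - q + 2 := fun h' =>
            hk (by linear_combination (-h) * h' - (k - q + 1) * hh)
          simp only [pro, this, if_false]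
          congr 1; linear_combination k * hh
    · rcases k with _ | k
      · exact ⟨none, rfl⟩
      · exact ⟨some k, hdiag k⟩
  obtain ⟨c', h1, -, h3⟩ := transport (Q := Option (ZMod m)) (n := m + 1)
    (by rw [Fintype.card_option, ZMod.card]) (pro h) had (ε * m + 1) (fun E hE => by
    let A : Finset (ZMod m) := univ.filter (fun x => some x ∈ E)
    have hA : ∀ x, x ∈ A ↔ some x ∈ E := by intro x; simp [A]
    have hsub : E ⊆ insert none (A.image some) := by
      intro x hx
      rcases x with _ | x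
      · exact mem_insert_self _ _
      · exact mem_insert_of_mem (mem_image.2 ⟨x, (hA x).2 hx, rfl⟩)
    have hc : #E ≤ #A + 1 :=
      (card_le_card hsub).trans ((card_insert_le _ _).trans (by
        have : #(A.image some) ≤ #A := card_image_le
        omega))
    have hc' : (#E : ℝ) ≤ #A + 1 := by exact_mod_cast hc
    by_contra hlt
    push Not at hlt
    refine roth_3ap_theorem ε hε (by rw [ZMod.card]; exact hN) A
      (by rw [ZMod.card]; linarith) ?_
    intro a ha b hb d hd he
    by_contra hab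
    have ha' := (hA a).1 ha
    have hb' := (hA b).1 hb
    have hd' := (hA d).1 hd
    have had' : a ≠ d := by
      rintro rfl
      exact hab (by linear_combination h * he - (a - b) * hh)
    by_cases hda : d = a + 2
    · have : ¬ a = d + 2 := by
        intro h'
        exact one_ne_zero (α := ZMod m)
          (by linear_combination (-(h * h)) * h' - (h * h) * hda - (2 * h + 1) * hh)
      refine hE _ hd' _ ha' _ hb' (by simpa using had'.symm) ?_
      rw [hdiag]
      simp only [pro, this, if_false]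
      congr 1; linear_combination h * he + b * hh
    · refine hE _ ha' _ hd' _ hb' (by simpa using had') ?_
      rw [hdiag]
      simp only [pro, hda, if_false]
      congr 1; linear_combination h * he + b * hh)
  exact ⟨c', h1, h3⟩

lemma bdd1 (n : ℕ) : BddAbove {m | ∃ c : Fin n → Fin n → Fin n, Admissible c ∧ s c = m} :=
  ⟨n, by rintro _ ⟨c, -, rfl⟩; exact s_le_n c⟩

lemma bdd2 (n : ℕ) : BddAbove {m | ∃ c : Fin n → Fin n → Fin n, Admissible c ∧
    (∀ p q, c p q = c q p) ∧ s c = m} :=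
  ⟨n, by rintro _ ⟨c, -, -, rfl⟩; exact s_le_n c⟩

theorem joined :
    (∀ ε : ℝ, 0 < ε → ∃ N : ℕ, ∀ n : ℕ, N ≤ n →
      (1 - ε) * n ≤ f n ∧ (Odd n → (1 - ε) * n ≤ fsym n)) ∧
    (∀ n : ℕ, f n ≤ n ∧ n + 2 * (n - f n) ≤ 3 * (n - f n) ^ 2) ∧
    (∀ n : ℕ, fsym n ≤ n ∧ 2 * n + (n - fsym n) ≤ 3 * (n - fsym n) ^ 2) := by
  refine ⟨fun ε hε => ?_, fun n => ?_, fun n => ?_⟩
  · obtain ⟨K, hK⟩ := exists_nat_ge (2 / ε)
    refine ⟨cornersTheoremBound (ε / 2) + K + 3, fun n hn => ?_⟩
    have hε2 : 0 < ε / 2 := by positivity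
    have hKn : (K : ℝ) ≤ n := by exact_mod_cast (by omega : K ≤ n)
    have h2 : 2 ≤ ε * n := by
      have : 2 / ε ≤ n := hK.trans hKn
      rw [div_le_iff₀ hε] at this; linarith
    have hn0 : (0 : ℝ) ≤ n := by positivity
    have hodd : Odd n → (1 - ε) * n ≤ f n ∧ (1 - ε) * n ≤ fsym n := by
      intro ho
      haveI : NeZero n := ⟨by omega⟩
      obtain ⟨c, h1, hs, h3⟩ := odd_case (ε / 2) hε2 n ho (by omega)
      have a1 : s c ≤ f n := le_csSup (bdd1 n) ⟨c, h1, rfl⟩
      have a2 : s c ≤ fsym n := le_csSup (bdd2 n) ⟨c, h1, hs, rfl⟩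
      have b1 : (s c : ℝ) ≤ f n := by exact_mod_cast a1
      have b2 : (s c : ℝ) ≤ fsym n := by exact_mod_cast a2
      constructor <;> nlinarith
    refine ⟨?_, fun ho => (hodd ho).2⟩
    rcases Nat.even_or_odd n with he | ho
    · obtain ⟨m, rfl⟩ : ∃ m, n = m + 1 := ⟨n - 1, by omega⟩
      have hm : Odd m := by
        rcases Nat.even_or_odd m with h' | h'
        · exact absurd he (by simpa [Nat.even_add_one] using h')
        · exact h'
      obtain ⟨c, h1, h3⟩ := even_case (ε / 2) hε2 m hm (by omega) (by omega)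
      have a1 : s c ≤ f (m + 1) := le_csSup (bdd1 _) ⟨c, h1, rfl⟩
      have b1 : (s c : ℝ) ≤ f (m + 1) := by exact_mod_cast a1
      push_cast at h3 h2 hn0 ⊢
      nlinarith
    · exact (hodd ho).1
  · by_cases hne : {m | ∃ c : Fin n → Fin n → Fin n, Admissible c ∧ s c = m}.Nonempty
    · obtain ⟨c, h1, h2⟩ := Nat.sSup_mem hne (bdd1 n)
      have : f n = s c := h2.symm
      rw [this]; exact ⟨s_le_n c, upper h1⟩
    · have : f n = 0 := by
        unfold f; rw [Set.not_nonempty_iff_eq_empty.1 hne]; simp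
      rw [this]
      refine ⟨Nat.zero_le _, ?_⟩
      have := Nat.le_mul_self n
      simp only [Nat.sub_zero]; nlinarith
  · by_cases hne : {m | ∃ c : Fin n → Fin n → Fin n, Admissible c ∧
        (∀ p q, c p q = c q p) ∧ s c = m}.Nonempty
    · obtain ⟨c, h1, hs, h2⟩ := Nat.sSup_mem hne (bdd2 n)
      have : fsym n = s c := h2.symm
      rw [this]; exact ⟨s_le_n c, upper_sym h1 hs⟩
    · have : fsym n = 0 := by
        unfold fsym; rw [Set.not_nonempty_iff_eq_empty.1 hne]; simp
      rw [this]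
      refine ⟨Nat.zero_le _, ?_⟩
      have := Nat.le_mul_self n
      simp only [Nat.sub_zero]; nlinarith

theorem result (ε : ℝ) (hε : 0 < ε) :
    ∃ N : ℕ, ∀ n : ℕ, N ≤ n → Odd n → (1 - ε) * n ≤ fsym n := by
  obtain ⟨N, h⟩ := joined.1 ε hε
  exact ⟨N, fun n hn => (h n hn).2⟩

end Pool.Agent.Results.MP_420652_co.LimitSym
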